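import Pool.Agent.MWGQ.Stmts
import Pool.Agent.Helper36_MWGN.CMW

/-!
# MWGQ row CMW: kappa and I1 imply Cm^w (twin of the row CMW of MWGN by helper36)
-/

namespace Pool.Agent.MWGQ.H69

open Pool.Agent.Helper14_MV Pool.Agent.Helper2_MV
open Pool.Agent.MWGQ
open Pool.Agent.MWGN (Tau)
open Pool.Agent.MWGN.H36 (tr ctx rr_flatMap tail)

/-- powers of all letters -/
def D (n : ℕ) (u : List ℕ) : List ℕ := u.flatMap (fun d => List.replicate (n + 1) d)

theorem D_cons (n a : ℕ) (l : List ℕ) : D n (a :: l) = List.replicate (n + 1) a ++ D n l := rfl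

theorem pw_succ (k : ℕ) (u : List ℕ) : pw (k + 1) u = u ++ pw k u := rfl

theorem pw_zero (u : List ℕ) : pw 0 u = [] := rfl

theorem pw_single (a : ℕ) : ∀ k : ℕ, pw k [a] = List.replicate k a
  | 0 => rfl
  | k + 1 => by rw [pw_succ, pw_single a k]; rfl

theorem pw_rep (a j : ℕ) : ∀ k : ℕ, pw k (List.replicate j a) = List.replicate (k * j) a
  | 0 => by rw [pw_zero, Nat.zero_mul]; rfl
  | k + 1 => by
    rw [pw_succ, pw_rep a j k, ← List.replicate_add]
    congr 1
    ring

theorem rep_sub (f : ℕ → List ℕ) (a : ℕ) : ∀ k : ℕ, (List.replicate k a).flatMap f = pw k (f a)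
  | 0 => rfl
  | k + 1 => by
    rw [List.replicate_succ, List.flatMap_cons, rep_sub f a k, pw_succ]

section
variable {β : FIC} {n : ℕ}

/-- a letter which occurs before may be raised to the power -/
theorem dup (hG : Gn n β) {A : List ℕ} {x : ℕ} (hx : x ∈ A) (R : List ℕ) :
    RR β (A ++ x :: R) (A ++ (List.replicate (n + 1) x ++ R)) := by
  obtain ⟨A₁, A₂, rfl⟩ := List.append_of_mem hx
  have h := hG.gm.sub (fun i => if i = 0 then [x] else A₂)
  have e1 : [0, 1, 0].flatMap (fun i => if i = 0 then [x] else A₂) = x :: (A₂ ++ [x]) := by simp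
  have e2 : (0 :: 1 :: Z (n + 1)).flatMap (fun i => if i = 0 then [x] else A₂) =
      x :: (A₂ ++ List.replicate (n + 1) x) := by
    rw [List.flatMap_cons, List.flatMap_cons, rep_sub]
    simp [pw_single]
  rw [e1, e2] at h
  have := ctx h A₁ R
  simpa only [List.append_assoc, List.cons_append, List.nil_append] using this

theorem sq_comm (hG : Gn n β) (a b : ℕ) :
    RR β (List.replicate (n + 1) a ++ List.replicate (n + 1) b)
      (List.replicate (n + 1) b ++ List.replicate (n + 1) a) := by
  have h := hG.c.sub (fun i => if i = 0 then [a] else [b])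
  rw [List.flatMap_append, List.flatMap_append, rep_sub, rep_sub] at h
  simpa [pw_single] using h

/-- a power commutes with a word of powers -/
theorem sq_D (hG : Gn n β) (a : ℕ) : ∀ u : List ℕ,
    RR β (List.replicate (n + 1) a ++ D n u) (D n u ++ List.replicate (n + 1) a)
  | [] => by
    have : RR β (List.replicate (n + 1) a) (List.replicate (n + 1) a) := RR.refl _
    simpa [D] using this
  | b :: u => by
    have h1 := (sq_comm hG a b).append (RR.refl (D n u))
    have h2 := (RR.refl (β := β) (List.replicate (n + 1) b)).append (sq_D hG a u)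
    rw [D_cons]
    simp only [List.append_assoc] at h1 h2 ⊢
    exact tr h1 h2

theorem pow_idem (hP : PwxStmt) (hG : Gn n β) (a : ℕ) :
    RR β (List.replicate (n + 1) a) (pw (n + 1) (List.replicate (n + 1) a)) := by
  have hn := hG.pos
  have h := (hP n β hG).1 [a] (n + 1) ((n + 1) * (n + 1)) (by omega) (by nlinarith) (by
    have h1 : (n + 1) * (n + 1) = (n + 1) + n * (n + 1) := by ring
    rw [h1]
    have h2 : (n + 1) + n * (n + 1) ≡ n + 1 [MOD n] := by
      unfold Nat.ModEq
      rw [Nat.add_mul_mod_self_left]
    exact h2.symm)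
  rw [pw_single, pw_single] at h
  rw [pw_rep]
  exact h

theorem comm_pw {A B : List ℕ} (h : RR β (A ++ B) (B ++ A)) : ∀ k : ℕ,
    RR β (pw k A ++ B) (B ++ pw k A)
  | 0 => by
    have : RR β B B := RR.refl _
    simpa [pw_zero] using this
  | k + 1 => by
    rw [pw_succ]
    have h1 := (RR.refl (β := β) A).append (comm_pw h k)
    have h2 := h.append (RR.refl (pw k A))
    simp only [List.append_assoc] at h1 h2 ⊢
    exact tr h1 h2

theorem pw_app {A B : List ℕ} (h : RR β (A ++ B) (B ++ A)) : ∀ k : ℕ,
    RR β (pw k A ++ pw k B) (pw k (A ++ B))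
  | 0 => by
    rw [pw_zero, pw_zero, pw_zero]
    exact RR.refl _
  | k + 1 => by
    rw [pw_succ, pw_succ, pw_succ]
    have h1 := ctx (comm_pw h k) A (pw k B)
    have h2 := (RR.refl (β := β) (A ++ B)).append (pw_app h k)
    simp only [List.append_assoc] at h1 h2 ⊢
    exact tr h1 h2

/-- words of powers are idempotent -/
theorem D_idem (hP : PwxStmt) (hG : Gn n β) : ∀ u : List ℕ, RR β (D n u) (pw (n + 1) (D n u))
  | [] => by
    have : pw (n + 1) (D n []) = [] := by simp [pw, D]
    rw [this]
    exact RR.refl _
  | a :: u => by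
    rw [D_cons]
    have h1 := (pow_idem hP hG a).append (D_idem hP hG u)
    exact tr h1 (pw_app (sq_D hG a u) (n + 1))

/-- a letter which occurs before moves through a word of powers -/
theorem mv (hG : Gn n β) {A : List ℕ} {x : ℕ} (hx : x ∈ A) (u R : List ℕ) :
    RR β (A ++ x :: (D n u ++ R)) (A ++ (D n u ++ x :: R)) := by
  refine tr (dup hG hx _) ?_
  have h2 := ctx (sq_D hG x u) A R
  refine tr (b := A ++ (D n u ++ (List.replicate (n + 1) x ++ R))) ?_ ?_
  · simpa only [List.append_assoc, List.cons_append, List.nil_append] using h2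
  · have h3 := dup hG (A := A ++ D n u) (x := x) (List.mem_append_left _ hx) R
    have := h3.symm
    simpa only [List.append_assoc, List.cons_append, List.nil_append] using this

/-! ### the normal form of the word between -/

/-- `z 0, D (u 0), z 1, D (u 1), ..` -/
def nf (n : ℕ) (z : ℕ → ℕ) (u : ℕ → List ℕ) (N : ℕ) : List ℕ :=
  (List.range N).flatMap (fun i => z i :: D n (u i))

theorem nf_cons (z : ℕ → ℕ) (u : ℕ → List ℕ) (N : ℕ) :
    nf n z u (N + 1) = z 0 :: D n (u 0) ++ nf n (fun i => z (i + 1)) (fun i => u (i + 1)) N := by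
  unfold nf
  rw [List.range_succ_eq_map, List.flatMap_cons, List.flatMap_map]

theorem nf_snoc (z : ℕ → ℕ) (u : ℕ → List ℕ) (N : ℕ) :
    nf n z u (N + 1) = nf n z u N ++ z N :: D n (u N) := by
  unfold nf
  rw [List.range_succ, List.flatMap_append]
  simp

theorem norm (hG : Gn n β) (hI : MWZ.I1 n (RR β)) (y : ℕ) (r : List ℕ) : ∀ (c A₀ : List ℕ),
    (∀ l ∈ c, 2 ≤ (A₀ ++ c ++ y :: r).count l) → y ∈ A₀ →
    ∃ (u₀ : List ℕ) (N : ℕ) (z : ℕ → ℕ) (u : ℕ → List ℕ),
      (∀ i < N, z i ∈ r ∧ z i ∉ A₀) ∧ (∀ i < N, ∀ j < N, z i = z j → i = j) ∧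
        ∀ A : List ℕ, A.Perm A₀ →
          RR β (A ++ (c ++ y :: r)) (A ++ (D n u₀ ++ (nf n z u N ++ y :: r)))
  | [], A₀, _, _ => ⟨[], 0, fun _ => 0, fun _ => [], fun i hi => by omega, fun i hi => by omega,
      fun A _ => RR.refl _⟩
  | d :: c, A₀, h, hy => by
    by_cases hd : d ∈ A₀ ∨ d ∉ r
    · -- the letter can be raised to the power
      obtain ⟨u₀, N, z, u, h1, h2, h3⟩ := norm hG hI y r c (A₀ ++ List.replicate (n + 1) d)
        (fun l hl => by
          have := h l (List.mem_cons_of_mem _ hl)
          simp only [List.count_append, List.count_cons, List.count_nil,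
            List.count_replicate] at this ⊢
          split_ifs at this ⊢ <;> omega) (List.mem_append_left _ hy)
      refine ⟨d :: u₀, N, z, u, fun i hi => ⟨(h1 i hi).1, fun hm =>
        (h1 i hi).2 (List.mem_append_left _ hm)⟩, h2, fun A hA => ?_⟩
      have hdouble : RR β (A ++ d :: (c ++ y :: r))
          (A ++ (List.replicate (n + 1) d ++ (c ++ y :: r))) := by
        by_cases hdA : d ∈ A₀
        · exact dup hG (hA.mem_iff.2 hdA) _
        · have hdr : d ∉ r := by
            rcases hd with hd | hd
            · exact absurd hd hdA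
            · exact hd
          have hdy : d ≠ y := fun e => hdA (e ▸ hy)
          have hc2 := h d (by simp)
          have hdc : d ∈ c := by
            by_contra hdc
            simp only [List.count_append, List.count_cons_self,
              List.count_cons_of_ne (Ne.symm hdy), List.count_eq_zero_of_not_mem hdA,
              List.count_eq_zero_of_not_mem hdr, List.count_eq_zero_of_not_mem hdc] at hc2
            omega
          obtain ⟨c₁, c₂, hc⟩ := List.append_of_mem hdc
          have hI1 := hI A c₁ (c₂ ++ y :: r) d (fun l hl => by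
            have := h l (by rw [hc]; exact List.mem_cons_of_mem _ (List.mem_append_left _ hl))
            rw [hc] at this
            simp only [List.count_append, List.count_cons, hA.count_eq] at this ⊢
            omega)
          rw [hc]
          simpa only [List.append_assoc, List.cons_append, List.nil_append] using hI1
      refine tr (by simpa only [List.cons_append] using hdouble) ?_
      have h4 := h3 (A ++ List.replicate (n + 1) d) (hA.append_right _)
      rw [D_cons]
      simpa only [List.append_assoc, List.cons_append, List.nil_append] using h4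
    · rw [not_or, not_not] at hd
      obtain ⟨hdA, hdr⟩ := hd
      obtain ⟨u₀, N, z, u, h1, h2, h3⟩ := norm hG hI y r c (A₀ ++ [d]) (fun l hl => by
        have := h l (List.mem_cons_of_mem _ hl)
        simp only [List.count_append, List.count_cons, List.count_nil] at this ⊢
        omega) (List.mem_append_left _ hy)
      refine ⟨[], N + 1, fun i => Nat.casesOn i d z, fun i => Nat.casesOn i u₀ u, ?_, ?_,
        fun A hA => ?_⟩
      · intro i hi
        cases i with
        | zero => exact ⟨hdr, hdA⟩
        | succ i => exact ⟨(h1 i (by omega)).1, fun hm =>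
            (h1 i (by omega)).2 (List.mem_append_left _ hm)⟩
      · intro i hi j hj e
        cases i with
        | zero =>
          cases j with
          | zero => rfl
          | succ j =>
            exact absurd (List.mem_append_right A₀ (by
              show z j ∈ [d]
              have e' : d = z j := e
              rw [e']
              simp)) (h1 j (by omega)).2
        | succ i =>
          cases j with
          | zero =>
            exact absurd (List.mem_append_right A₀ (by
              show z i ∈ [d]
              have e' : z i = d := e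
              rw [e']
              simp)) (h1 i (by omega)).2
          | succ j =>
            have := h2 i (by omega) j (by omega) e
            omega
      · have h4 := h3 (A ++ [d]) (hA.append_right _)
        rw [nf_cons]
        simp only [List.append_assoc, List.cons_append, List.nil_append] at h4 ⊢
        exact h4

/-- the identity `k` with words -/
theorem kk (hG : Gn n β) (X Y t : List ℕ) :
    RR β (X ++ (Y ++ (t ++ (X ++ Y)))) (Y ++ (X ++ (t ++ (X ++ Y)))) := by
  have h := hG.k.sub (fun i => if i = 0 then X else if i = 1 then Y else t)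
  simpa using h

/-- the word in the form used by `Kap` -/
theorem form (hP : PwxStmt) (hG : Gn n β) {A : List ℕ} {x y : ℕ} (hx : x ∈ A) (hy : y ∈ A)
    (u₀ : List ℕ) (z : ℕ → ℕ) (u : ℕ → List ℕ) (m : ℕ) (r : List ℕ) :
    RR β (A ++ [x] ++ (D n u₀ ++ (nf n z u (m + 1) ++ y :: r)))
      (A ++ (D n u₀ ++ ([x] ++ (bd n (fun i => [z i]) (fun i => D n (u i)) m ++
        ([z m] ++ ([y] ++ (D n (u m) ++ r))))))) := by
  -- move x
  have h1 := mv hG hx u₀ (nf n z u (m + 1) ++ y :: r)
  refine tr (b := A ++ (D n u₀ ++ x :: (nf n z u (m + 1) ++ y :: r))) ?_ ?_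
  · simpa only [List.append_assoc, List.cons_append, List.nil_append] using h1
  rw [nf_snoc]
  -- move y
  have h2 := (mv hG (A := A ++ (D n u₀ ++ x :: (nf n z u m ++ [z m]))) (x := y)
    (List.mem_append_left _ hy) (u m) r).symm
  refine tr (b := A ++ (D n u₀ ++ x :: (nf n z u m ++ [z m])) ++ y :: (D n (u m) ++ r)) ?_ ?_
  · simpa only [List.append_assoc, List.cons_append, List.nil_append] using h2
  have h3 : RR β (nf n z u m) (bd n (fun i => [z i]) (fun i => D n (u i)) m) := by
    unfold nf bd
    apply rr_flatMap
    intro i _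
    have := (RR.refl (β := β) [z i]).append (D_idem hP hG (u i))
    exact this
  have h4 := ctx h3 (A ++ (D n u₀ ++ [x])) ([z m] ++ ([y] ++ (D n (u m) ++ r)))
  simpa only [List.append_assoc, List.cons_append, List.nil_append] using h4

end

/-- **CMW** -/
theorem cmw (h1 : PwxStmt) : CmwStmt := by
  intro n β hG hI hK p q c r x y hMul
  have hP := h1
  obtain ⟨u₀, N, z, u, h1, h2, h3⟩ := norm hG hI y r c (p ++ x :: y :: (q ++ [x]))
    (fun l hl => by
      have := hMul l hl
      simpa only [List.append_assoc, List.cons_append, List.nil_append] using this)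
    (by simp)
  have hL := h3 (p ++ x :: y :: (q ++ [x])) (List.Perm.refl _)
  have hR := h3 (p ++ y :: x :: (q ++ [x])) (List.Perm.append_left p (List.Perm.swap _ _ _))
  cases N with
  | zero =>
    have key : ∀ a b : ℕ, x ∈ p ++ a :: b :: q →
        RR β (p ++ a :: b :: (q ++ [x]) ++ (D n u₀ ++ (nf n z u 0 ++ y :: r)))
          (p ++ ([a] ++ ([b] ++ ((q ++ D n u₀) ++ ([x] ++ [y])))) ++ r) := by
      intro a b hx
      have := mv hG hx u₀ (y :: r)
      simpa only [nf, List.range_zero, List.flatMap_nil, List.append_assoc, List.cons_append,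
        List.nil_append] using this
    have k1 := key x y (by simp)
    have k2 := key y x (by simp)
    have k3 := ctx (kk hG [x] [y] (q ++ D n u₀)) p r
    have hL' := tr hL k1
    have hR' := tr hR k2
    have := tr (tr hL' (by simpa only [List.append_assoc] using k3)) hR'.symm
    simpa only [List.append_assoc, List.cons_append, List.nil_append] using this
  | succ m =>
    obtain ⟨τ, S, rest, t1, t2, t3⟩ := tail z (D n (u m) ++ r) (Finset.range (m + 1))
      (fun i hi => List.mem_append_right _ (h1 i (Finset.mem_range.1 hi)).1)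
      (fun i hi j hj e => h2 i (Finset.mem_range.1 hi) j (Finset.mem_range.1 hj) e)
    have hτ : Tau τ m := ⟨t1, fun i => by rw [t2, Finset.mem_range]; omega⟩
    have hkap := hK m τ hτ [x] [y] (q ++ D n u₀) [] S (fun i => [z i]) (fun i => D n (u i))
    have f1 := form hP hG (A := p ++ x :: y :: q) (x := x) (y := y) (by simp) (by simp) u₀ z u m r
    have f2 := form hP hG (A := p ++ y :: x :: q) (x := x) (y := y) (by simp) (by simp) u₀ z u m r
    rw [t3] at f1 f2
    have k3 := ctx hkap p rest
    unfold kr at k3
    have hL' : RR β (p ++ x :: y :: (q ++ x :: (c ++ y :: r)))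
        (p ++ x :: y :: q ++ [x] ++ (D n u₀ ++ (nf n z u (m + 1) ++ y :: r))) := by
      simpa only [List.append_assoc, List.cons_append, List.nil_append] using hL
    have hR' : RR β (p ++ y :: x :: (q ++ x :: (c ++ y :: r)))
        (p ++ y :: x :: q ++ [x] ++ (D n u₀ ++ (nf n z u (m + 1) ++ y :: r))) := by
      simpa only [List.append_assoc, List.cons_append, List.nil_append] using hR
    have l1 := tr hL' f1
    have l2 := tr hR' f2
    refine tr l1 (tr ?_ l2.symm)
    simpa only [List.append_assoc, List.cons_append, List.nil_append] using k3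

end Pool.Agent.MWGQ.H69
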